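import Pool.Agent.Q283.PQ.Stm
import Pool.Agent.Q283.FT.Stm4

/-!
# Project PQ (helper283), job PQB: the law for the strict Selmer groups, number fields which contain `i`
-/

set_option autoImplicit false

namespace Pool.Agent.Q121.PQ

open NumberField IsDedekindDomain Filter Topology Finset WeierstrassCurve Module
open Pool.Agent.Q283.LQ (Sm Box Nest nS)
open Pool.Agent.Q7.LK
open Pool.Agent.Q283.FT (U2 om crv Rt twi df Cov HasN2 AX Gd LocP Dcl opT dj nSel)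
open Pool.Agent.Q283.FG (NoFour Nr Bs FR RX)
open Pool.Agent.Q283.PQ

theorem nest_mono : ∀ (k : ℕ) (P Q : (Fin k → ℕ) → Prop), (∀ X, P X → Q X) → Nest k P → Nest k Q
  | 0, _, _, h, hP => h _ hP
  | k + 1, P, Q, h, hP => nest_mono k _ _ (fun X hX => by
      filter_upwards [hX] with x hx using h _ hx) hP

theorem fn {α : Type} [Fintype α] (p : α → Prop) [DecidablePred p] :
    (univ.filter p).card = {a | p a}.ncard := by
  rw [← Set.ncard_coe_finset]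
  apply congrArg
  ext a
  simp

/-- a real inequality -/
theorem ineq1 {K T N U a e' e e'' : ℝ} (hT : 0 < T) (hN : 0 < N) (h1 : |K * T - U * N| ≤ e'' * N * T)
    (h2 : U ≤ (a + e') * T) (he : e' + e'' ≤ e) : K ≤ (a + e) * N := by
  have h3 := (abs_le.mp h1).2
  have h4 : U * N ≤ (a + e') * T * N := mul_le_mul_of_nonneg_right h2 hN.le
  have h5 : (e' + e'') * (N * T) ≤ e * (N * T) := mul_le_mul_of_nonneg_right he (by positivity)
  have h6 : K * T ≤ ((a + e) * N) * T := by linarith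
  exact le_of_mul_le_mul_right h6 hT

theorem rt_twi {F : Type} [Field F] {e : Fin 3 → F} (h : Rt e) {D : F} (hD : D ≠ 0) : Rt (twi D e) where
  inj := fun a b hab => h.inj (mul_left_cancel₀ hD hab)
  sum := by
    have h1 := h.sum
    simp only [twi]
    linear_combination D * h1

/-- the table of a tuple -/
noncomputable def tabq {F : Type} [Field F] [NumberField F] {f k : ℕ} (ζ : F) (u : Fin f → F)
    (π : HeightOneSpectrum (𝓞 F) → F) (q : Fin k → HeightOneSpectrum (𝓞 F)) : Tab 2 f k :=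
  (fun j l => sy 2 ζ (q j) (u l), fun x => sy 2 ζ (q x.1.2) (π (q x.1.1)))

theorem tb_tabq {F : Type} [Field F] [NumberField F] {f k : ℕ} (ζ : F) (u : Fin f → F)
    (π : HeightOneSpectrum (𝓞 F) → F) (q : Fin k → HeightOneSpectrum (𝓞 F)) : Tb ζ u π (tabq ζ u π q) q :=
  ⟨fun _ _ => rfl, fun _ => rfl⟩

section

variable {F : Type} [Field F] [NumberField F]

omit [NumberField F] in
theorem no_real {i : F} (hi : i ^ 2 = -1) (φ : F →+* ℝ) : False := by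
  have h := congrArg φ hi
  rw [map_pow, map_neg, map_one] at h
  nlinarith [sq_nonneg (φ i)]

theorem fr_iff {i : F} (hi : i ^ 2 = -1) {y : ℕ} {D0 : F} {k : ℕ} {q : Fin k → HeightOneSpectrum (𝓞 F)} {D : F} :
    FR y D0 q D ↔ Fits 2 y D0 (fun _ => 1) q D :=
  ⟨fun h => h.1, fun h => ⟨h, fun φ => (no_real hi φ).elim⟩⟩

theorem nr_iff {i : F} (hi : i ^ 2 = -1) {y : ℕ} {b : F} : Nr y b ↔ Nn 2 y b :=
  ⟨fun h => h.1, fun h => ⟨h, fun φ => (no_real hi φ).elim⟩⟩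

omit [NumberField F] in
theorem pow_neg_i {i : F} (hi : i ^ 2 = -1) {a : F} (h : IsPow 2 a) : IsPow 2 (-a) := by
  obtain ⟨x, rfl⟩ := h
  exact ⟨i * x, by rw [mul_pow, hi]; ring⟩

omit [NumberField F] in
theorem noFour_i {i : F} (hi : i ^ 2 = -1) {e : Fin 3 → F} (h : NoFour e) : Pool.Agent.Q283.FT.NoFour e := by
  obtain ⟨h1, h2, h3⟩ := h
  have h2' : ¬ IsPow 2 (df e 0 * df e 2) := fun hc => h2 (pow_neg_i hi hc)
  intro l l' hl hc
  have hcomm : ∀ a b : F, IsPow 2 (a * b) → IsPow 2 (b * a) := fun a b hab => by rwa [mul_comm]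
  fin_cases l <;> fin_cases l' <;> first
    | exact hl rfl
    | exact h1 hc
    | exact h1 (hcomm _ _ hc)
    | exact h2' hc
    | exact h2' (hcomm _ _ hc)
    | exact h3 hc
    | exact h3 (hcomm _ _ hc)

theorem lpw_neg {i : F} (hi : i ^ 2 = -1) {v : HeightOneSpectrum (𝓞 F)} {a : F} (h : Lpw 2 v a) :
    Lpw 2 v (-a) := by
  intro n
  obtain ⟨x, hx⟩ := h n
  refine ⟨i * x, ?_⟩
  have e : -a * (i * x) ^ 2 = a * x ^ 2 := by
    rw [mul_pow, hi]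
    ring
  rw [e]
  exact hx

theorem lpw_mul_neg {i : F} (hi : i ^ 2 = -1) {v : HeightOneSpectrum (𝓞 F)} {a b : F} :
    Lpw 2 v (a * -b) ↔ Lpw 2 v (a * b) := by
  rw [mul_neg]
  refine ⟨fun h => ?_, fun h => lpw_neg hi h⟩
  have := lpw_neg hi h
  rwa [neg_neg] at this

theorem tx_iff {i : F} (hi : i ^ 2 = -1) {v : HeightOneSpectrum (𝓞 F)} {e : Fin 3 → F} {a b : F} :
    Pool.Agent.Q283.FG.TX v e a b ↔ Pool.Agent.Q283.FT.TX v e a b := by
  unfold Pool.Agent.Q283.FG.TX Pool.Agent.Q283.FT.TX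
  have h0 : Pool.Agent.Q283.FG.tc e 0 = (df e 1 * df e 2, df e 2) := rfl
  have h1 : Pool.Agent.Q283.FG.tc e 1 = (-df e 2, -(df e 0 * df e 2)) := rfl
  have h2 : Pool.Agent.Q283.FG.tc e 2 = (-df e 1, -df e 0) := rfl
  constructor
  · rintro (h | ⟨l, h⟩)
    · exact Or.inl h
    · right
      fin_cases l
      · simp only [Fin.zero_eta, h0] at h
        exact Or.inl h
      · simp only [Fin.mk_one, h1, lpw_mul_neg hi] at h
        exact Or.inr (Or.inl h)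
      · simp only [Fin.reduceFinMk, h2, lpw_mul_neg hi] at h
        exact Or.inr (Or.inr h)
  · rintro (h | h | h | h)
    · exact Or.inl h
    · exact Or.inr ⟨0, by rw [h0]; exact h⟩
    · exact Or.inr ⟨1, by rw [h1]; simpa only [lpw_mul_neg hi] using h⟩
    · exact Or.inr ⟨2, by rw [h2]; simpa only [lpw_mul_neg hi] using h⟩

theorem condP_iff {i : F} (hi : i ^ 2 = -1) {y : ℕ} {A : HeightOneSpectrum (𝓞 F) → F → F → Prop}
    {R : (F →+* ℝ) → F → F → Prop} {e : Fin 3 → F} {D a b : F} :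
    Pool.Agent.Q283.FG.CondP y A R e D a b ↔ Pool.Agent.Q283.FT.CondP y A e D a b :=
  ⟨fun h => ⟨h.ne, h.unr, fun v hv hD => (tx_iff hi).1 (h.ram v hv hD), h.loc⟩,
    fun h => ⟨h.ne, h.unr, fun v hv hD => (tx_iff hi).2 (h.ram v hv hD), h.loc, fun φ => (no_real hi φ).elim⟩⟩

theorem mem_iff {i : F} (hi : i ^ 2 = -1) {f y : ℕ} {u r : Fin f → F}
    {A : HeightOneSpectrum (𝓞 F) → F → F → Prop} {R : (F →+* ℝ) → F → F → Prop}
    {𝓛 : Submodule (ZMod 2) ((Fin f → U2) × (Fin f → U2))} (h : Pool.Agent.Q283.FT.Mem y u r A 𝓛) :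
    Pool.Agent.Q283.FG.Mem y u r A R 𝓛 := by
  intro a b x x' ha hb h1 h2
  rw [h a b x x' ha hb h1.1 h2.1]
  exact ⟨fun h3 => ⟨h3, fun φ => (no_real hi φ).elim⟩, fun h3 => h3.1⟩

theorem bs_of {i : F} (hi : i ^ 2 = -1) {ζ : F} {y f : ℕ} {u r : Fin f → F}
    {π : HeightOneSpectrum (𝓞 F) → F} (h : Base 2 ζ y f u r π (fun _ _ => 0)) :
    Bs ζ y f u r π (fun _ _ => 0) where
  two := h.two
  ue := h.ue
  re := h.re
  uo := h.uo
  ind := h.ind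
  full := h.full
  po := fun q hq => ⟨(h.po q hq).1, fun v hv => by
    have := (h.po q hq).2 v hv
    exact ⟨fun hvq => by rw [this, if_pos hvq], fun hvq => by rw [this, if_neg hvq]⟩⟩
  cls := fun b hb => by
    obtain ⟨x, hx, hu⟩ := h.cls b hb
    exact ⟨x, (nr_iff hi).2 hx, fun x' hx' => hu x' ((nr_iff hi).1 hx')⟩
  pc := fun q hq => (nr_iff hi).2 (h.pc q hq)
  rcp := fun q q' hq hq' hne => by
    have := h.rcp q q' hq hq' hne
    rw [← this]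
    exact (CharTwo.sub_eq_add _ _).symm

end

open Classical in
theorem pqb (hTBI : S_TBI) (hLSS : S_LSS) (hFUS : S_FUS) (hATP : S_ATP)
    (hG0 : Pool.Agent.Q283.FT.S_G0) (hSBM : Pool.Agent.Q283.FT.S_SBM) (hLOK : Pool.Agent.Q283.FT.S_LOK)
    (hTRS : Pool.Agent.Q283.FT.S_TRS) (hSXX : Pool.Agent.Q283.FT.S_SXX) (hDCE : Pool.Agent.Q283.FT.S_DCE)
    (hGDS : Pool.Agent.Q283.FT.S_GDS) (hLCP : Pool.Agent.Q283.FT.S_LCP)
    (hTRF : Pool.Agent.Q283.EN.S_TRF) (hBASE2 : Pool.Agent.Q283.EN.S_BASE2)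
    (hLOC2 : Pool.Agent.Q283.EN.S_LOC2) (hHS22 : Pool.Agent.Q283.EN.S_HS22) : S_PQB := by
  intro F _ _ i hi e hRt hNF
  have : Fact (Nat.Prime 2) := ⟨Nat.prime_two⟩
  have hζ : IsPrimitiveRoot (-1 : F) 2 := IsPrimitiveRoot.neg_one 0 (by norm_num)
  obtain ⟨ζ, hζe⟩ : ∃ ζ : F, ζ = -1 := ⟨_, rfl⟩
  rw [← hζe] at hζ
  obtain ⟨t, ht⟩ := hHS22 F i ζ hi hζ
  obtain ⟨y1, hy1⟩ := hG0 F i ζ hi hζ (hBASE2 F i ζ hi hζ) (hLOC2 F i hi) t ht
  obtain ⟨y2, hy2⟩ := hGDS F e hRt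
  refine ⟨max y1 y2, fun y hy D0 hD0 S hS ε hε => ?_⟩
  obtain ⟨f, u, r, π, hB, hFrm, hf, hf1, hfin⟩ := hy1 y (le_trans (le_max_left _ _) hy)
  have hgd : ∀ v : HeightOneSpectrum (𝓞 F), ¬ Sm y v → Gd v e := hy2 y (le_trans (le_max_right _ _) hy)
  obtain ⟨hd1, hd2, -⟩ := hDCE F ζ hζ y f u r π hB
  obtain ⟨c, hc⟩ := hd1 e hRt hgd
  have hinj : Function.Injective c := hd2 e c hRt hc (noFour_i hi hNF)
  obtain ⟨⟨ψ, w⟩, hψ, -⟩ := hB.cls D0 hD0
  simp only at hψ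
  obtain ⟨𝓛, hMem, hOk⟩ := hLOK F i ζ hi hζ t ht y f u r π hB hFrm hf hfin e c hRt hc D0 ψ w hD0 hψ ⟨0, hf1⟩
  have hRt0 : Rt (twi D0 e) := rt_twi hRt hD0
  -- the conditions `AS`
  have hASTX : ∀ (v : HeightOneSpectrum (𝓞 F)) (a b : F), Pool.Agent.Q283.FT.TX v (twi D0 e) a b →
      AS S v (twi D0 e) a b := by
    intro v a b h
    obtain ⟨-, -, -, h4, h5, -⟩ := hATP F (twi D0 e) hRt0 v
    have h6 := h4 a b ((tx_iff hi).2 h)
    exact ⟨fun _ => h6, fun _ => h5 a b h6⟩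
  have hASL : LocP y (fun v => AS S v (twi D0 e)) := by
    refine ⟨fun v a b _ h => ?_, fun v a b a' b' _ h h' => ?_, fun v a b _ ha hb => ?_⟩
    · by_cases hv : v ∈ S
      · exact ⟨(h.1 hv).1, (h.1 hv).2.1⟩
      · exact ⟨(h.2 hv).1, (h.2 hv).2.1⟩
    · exact ⟨fun hv => (hATP F (twi D0 e) hRt0 v).1 a b a' b' (h.1 hv) (h'.1 hv),
        fun hv => (hLCP F i hi (twi D0 e) hRt0 v).1 a b a' b' (h.2 hv) (h'.2 hv)⟩
    · exact hASTX v a b (Or.inl ⟨ha, hb⟩)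
  obtain ⟨𝓛', hMem'⟩ := hSBM F ζ hζ y f u r π hB (fun v => AS S v (twi D0 e)) hASL
  obtain ⟨d, hd⟩ : ∃ d : ℕ, d = ∑ᶠ v : {v : HeightOneSpectrum (𝓞 F) // v ∈ S}, dv 2 v.1 := ⟨_, rfl⟩
  rw [← hd]
  have hcard : Nat.card 𝓛' * 2 ^ d ≤ 4 ^ f := by
    have h1 := (hLSS F ζ hζ y f u r π (fun _ _ => 0) (bs_of hi hB) hfin (twi D0 e) hRt0 S hS 𝓛 𝓛'
      (mem_iff hi hMem) (mem_iff hi hMem')).2
    rw [← hd] at h1
    refine h1.trans (le_of_eq ?_)
    have h2 := hOk.card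
    have h3 : Nat.card U2 = 4 := by
      simp [Nat.card_eq_fintype_card]
    rw [h3, Fintype.card_fin] at h2
    exact h2
  have htor : ∀ x : U2, ((fun t => opT c w (Pi.single t 1) x), (fun t => ψ t • x)) ∈ 𝓛' :=
    hTRS F ζ hζ y f u r π hB e c hRt hc D0 ψ w hD0 hψ (fun v => AS S v (twi D0 e))
      (fun v a b _ h => hASTX v a b h) 𝓛' hMem'
  -- the number of the classes
  have key : ∀ (k : ℕ) (q : Fin k → HeightOneSpectrum (𝓞 F)), Function.Injective q → (∀ i, ¬ Sm y (q i)) →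
      ∀ τ : Tab 2 f k, Tb ζ u π τ q → ∀ D : F, FR y D0 q D → ∀ N : ℕ,
      HasN2 (SRS S (twi D e)) N ↔ N = nSel (dj ⟨0, hf1⟩ c w 𝓛') τ := by
    intro k q hq hqs τ hτ D hD' N
    have hD := (fr_iff hi).1 hD'
    have h1 : SRS S (twi D e) = Pool.Agent.Q283.FT.CondP y (fun v => AS S v (twi D0 e)) e D := by
      funext a b
      refine propext ((hFUS F e hRt y hB.two hgd S hS D0 D hD0 hD.ne ?_ a b).trans (condP_iff hi))
      exact (nr_iff hi).2 ⟨div_ne_zero hD.ne hD0, hD.loc⟩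
    rw [h1]
    exact hSXX F i ζ hi hζ y f u r π hB e c hRt hc (fun v => AS S v (twi D0 e)) 𝓛' hMem'
      D0 ψ w hD0 hψ ⟨0, hf1⟩ k q hq hqs τ hτ D hD N
  obtain ⟨k0, hk0⟩ := hTBI f ⟨0, hf1⟩ c w 𝓛' ψ d (fun h => absurd (hinj h) (by decide))
    (fun h => absurd (hinj h) (by decide)) (fun h => absurd (hinj h) (by decide)) hcard htor (ε / 2)
    (by positivity)
  refine ⟨max k0 1, fun k hk => ?_⟩
  have hk1 : 1 ≤ k := (le_max_right _ _).trans hk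
  have hT1 := hk0 k ((le_max_left _ _).trans hk)
  refine nest_mono k _ _ (fun X hX => ?_) (hTRF 2 F ζ hζ y f u r π _ hB D0 ψ w hD0 hψ k (fun _ => 1) hk1
    (fun _ => one_ne_zero) (ε / 2) (by positivity))
  obtain ⟨hfinB, hpos, -, hP⟩ := hX
  have hFRs : ∀ q : Fin k → HeightOneSpectrum (𝓞 F), (∃ D, FR y D0 q D) ↔ ∃ D, Fits 2 y D0 (fun _ => 1) q D :=
    fun q => exists_congr fun D => fr_iff hi
  have hset0 : {q ∈ (Box y X : Set (Fin k → HeightOneSpectrum (𝓞 F))) | ∃ D, FR y D0 q D} =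
      {q ∈ (Box y X : Set (Fin k → HeightOneSpectrum (𝓞 F))) | ∃ D, Fits 2 y D0 (fun _ => 1) q D} := by
    ext q
    exact and_congr_right fun _ => hFRs q
  rw [hset0]
  refine ⟨hfinB, hpos, ?_⟩
  have h1 := hP (fun τ => nSel (dj ⟨0, hf1⟩ c w 𝓛') τ ≠ 4)
  have hset : {q ∈ (Box y X : Set (Fin k → HeightOneSpectrum (𝓞 F))) | (∃ D, FR y D0 q D) ∧
        ¬ ∀ D, FR y D0 q D → HasN2 (SRS S (twi D e)) 4} =
      {q ∈ (Box y X : Set (Fin k → HeightOneSpectrum (𝓞 F))) | (∃ D, Fits 2 y D0 (fun _ => 1) q D) ∧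
          ∃ τ, Tb ζ u π τ q ∧ nSel (dj ⟨0, hf1⟩ c w 𝓛') τ ≠ 4} := by
    ext q
    constructor
    · rintro ⟨hq, hD, hall⟩
      refine ⟨hq, (hFRs q).1 hD, tabq ζ u π q, tb_tabq ζ u π q, fun h4 => hall fun D' hD' => ?_⟩
      exact (key k q hq.1 (fun j => (hq.2 j).1) _ (tb_tabq ζ u π q) D' hD' 4).2 h4.symm
    · rintro ⟨hq, hD, τ, hτ, h4⟩
      obtain ⟨D, hD⟩ := (hFRs q).2 hD
      refine ⟨hq, ⟨D, hD⟩, fun hall => h4 ?_⟩
      exact ((key k q hq.1 (fun j => (hq.2 j).1) τ hτ D hD 4).1 (hall D hD)).symm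
  rw [hset]
  obtain ⟨N, hN⟩ : ∃ N : ℝ, N = ({q ∈ (Box y X : Set (Fin k → HeightOneSpectrum (𝓞 F))) |
    ∃ D, Fits 2 y D0 (fun _ => 1) q D}.ncard : ℝ) := ⟨_, rfl⟩
  obtain ⟨T, hT⟩ : ∃ T : ℝ, T = ((univ.filter (fun τ : Tab 2 f k => ∑ j, (1 : ZMod 2) • τ.1 j = ψ)).card : ℝ) :=
    ⟨_, rfl⟩
  have hTpos : 0 < T := by
    rw [hT, Nat.cast_pos, Finset.card_pos]
    refine ⟨(fun j => if j = ⟨0, hk1⟩ then ψ else 0, 0), ?_⟩
    rw [mem_filter]
    refine ⟨mem_univ _, ?_⟩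
    simp only
    rw [Finset.sum_eq_single (⟨0, hk1⟩ : Fin k)]
    · rw [if_pos rfl, one_smul]
    · intro j _ hj
      rw [if_neg hj, smul_zero]
    · intro h
      exact absurd (mem_univ _) h
  simp only [fn] at hT hT1 h1
  rw [← hN] at hpos h1 ⊢
  rw [← hT] at hT1 h1
  exact ineq1 hTpos hpos h1 hT1 (show ε / 2 + ε / 2 ≤ ε by linarith)

end Pool.Agent.Q121.PQ
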